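import Mathlib

set_option autoImplicit false

namespace Pool.Agent.Results.MP_390221_co.DisjointPairs

/-- The Euclidean plane. -/
abbrev Plane : Type := EuclideanSpace ℝ (Fin 2)

/-- A geometric graph: a finite set of points of the plane with no three collinear, and a simple
graph on these points, whose edges are drawn as straight segments. -/
structure GeometricGraph where
  /-- the vertex set -/
  verts : Finset Plane
  /-- no three vertices are collinear -/
  generalPosition : ∀ a ∈ verts, ∀ b ∈ verts, ∀ c ∈ verts, a ≠ b → b ≠ c → a ≠ c →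
    ¬ Collinear ℝ ({a, b, c} : Set Plane)
  /-- the graph on the vertex set; an edge `s(a, b)` is drawn as the closed segment from `a`
  to `b` -/
  graph : SimpleGraph verts

namespace GeometricGraph

variable (Γ : GeometricGraph)

/-- The number of vertices. -/
def n : ℕ := Γ.verts.card

/-- The number of edges. -/
noncomputable def e : ℕ := Γ.graph.edgeSet.ncard

/-- The average degree `2 e / n`. -/
noncomputable def d : ℝ := 2 * (Γ.e : ℝ) / (Γ.n : ℝ)

/-- The set of unordered pairs of disjoint edges: pairs of edges whose closed segments have no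
point in common. -/
def DJ : Set (Sym2 (Sym2 Γ.verts)) :=
  {P | ∃ a b x y : Γ.verts, Γ.graph.Adj a b ∧ Γ.graph.Adj x y ∧
    Disjoint (segment ℝ (a : Plane) (b : Plane)) (segment ℝ (x : Plane) (y : Plane)) ∧
    P = s(s(a, b), s(x, y))}

end GeometricGraph

/-- The orientation determinant of three points. -/
noncomputable def orient (x y z : Plane) : ℝ :=
  (y 0 - x 0) * (z 1 - x 1) - (y 1 - x 1) * (z 0 - x 0)

lemma orient_swap (x y z : Plane) : orient y x z = - orient x y z := by
  unfold orient; ring

lemma orient_swap' (x y z : Plane) : orient x z y = - orient x y z := by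
  unfold orient; ring

lemma orient_rot (x y z : Plane) : orient y z x = orient x y z := by
  unfold orient; ring

lemma orient_four (u v w x : Plane) :
    orient u v w + orient v u x + orient u w x + orient v x w = 0 := by
  unfold orient; ring

lemma collinear_of_orient_eq_zero {x y z : Plane} (hxy : x ≠ y) (h : orient x y z = 0) :
    Collinear ℝ ({x, y, z} : Set Plane) := by
  rw [collinear_iff_of_mem (p₀ := x) (by simp)]
  refine ⟨y - x, ?_⟩
  have hne : y 0 - x 0 ≠ 0 ∨ y 1 - x 1 ≠ 0 := by
    by_contra hcon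
    push Not at hcon
    apply hxy
    ext i
    fin_cases i
    · simpa using (sub_eq_zero.1 hcon.1).symm
    · simpa using (sub_eq_zero.1 hcon.2).symm
  unfold orient at h
  intro p hp
  simp only [Set.mem_insert_iff, Set.mem_singleton_iff] at hp
  rcases hp with rfl | rfl | rfl
  · exact ⟨0, by simp⟩
  · exact ⟨1, by simp⟩
  · rcases hne with h0 | h1
    · refine ⟨(p 0 - x 0) / (y 0 - x 0), ?_⟩
      ext i
      fin_cases i
      · simp
        field_simp
        ring
      · simp
        field_simp
        linarith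
    · refine ⟨(p 1 - x 1) / (y 1 - x 1), ?_⟩
      ext i
      fin_cases i
      · simp
        field_simp
        linarith
      · simp
        field_simp
        ring

/-- Points of a segment from `u` to `w` with `w` strictly left of `u → v`. -/
lemma orient_of_mem_segment {u v w z : Plane} (h : 0 < orient u v w)
    (hz : z ∈ segment ℝ u w) : 0 ≤ orient u v z ∧ (orient u v z = 0 → z = u) := by
  obtain ⟨a, b, ha, hb, hab, rfl⟩ := hz
  have hform : orient u v (a • u + b • w) = b * orient u v w := by
    have ha' : a = 1 - b := by linarith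
    unfold orient
    simp only [PiLp.add_apply, PiLp.smul_apply, smul_eq_mul]
    rw [ha']
    ring
  rw [hform]
  refine ⟨by positivity, ?_⟩
  intro h0
  have hb0 : b = 0 := by
    rcases mul_eq_zero.1 h0 with h1 | h1
    · exact h1
    · exact absurd h1 h.ne'
  have ha1 : a = 1 := by linarith
  simp [hb0, ha1]

/-- A left-left zigzag gives a disjoint pair of segments. -/
lemma disjoint_of_zigzag {u v w x : Plane} (huv : u ≠ v) (h1 : 0 < orient u v w)
    (h2 : 0 < orient v u x) : Disjoint (segment ℝ u w) (segment ℝ v x) := by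
  rw [Set.disjoint_left]
  intro z hz1 hz2
  obtain ⟨a1, b1⟩ := orient_of_mem_segment h1 hz1
  obtain ⟨a2, b2⟩ := orient_of_mem_segment h2 hz2
  rw [orient_swap u v z] at a2 b2
  have h0 : orient u v z = 0 := by linarith
  have e1 := b1 h0
  have e2 := b2 (by rw [h0]; simp)
  exact huv (e1.symm.trans e2)

/-- Tournament inequality: if `A` is a finite set with an antisymmetric total sign `χ`, and `l`
bounds the out-degrees from above, then the truncated deficits are small. -/
lemma tournament {V : Type*} [DecidableEq V] (A : Finset V) (χ : V → V → ℝ)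
    (hanti : ∀ v w, χ w v = - χ v w) (hne : ∀ v ∈ A, ∀ w ∈ A, v ≠ w → χ v w ≠ 0) (s : ℕ) :
    2 * ∑ v ∈ A, (s - (A.filter (fun w => 0 < χ v w)).card) ≤ s * (s + 1) := by
  classical
  set l : V → ℕ := fun v => (A.filter (fun w => 0 < χ v w)).card with hl
  set B : Finset V := A.filter (fun v => l v < s) with hB
  have hBA : B ⊆ A := Finset.filter_subset _ _
  -- the sum is over B only
  have h1 : ∑ v ∈ A, (s - l v) = ∑ v ∈ B, (s - l v) := by
    symm
    apply Finset.sum_subset hBA
    intro v hv hvB
    have : ¬ l v < s := fun h => hvB (Finset.mem_filter.2 ⟨hv, h⟩)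
    omega
  -- count pairs inside B
  have h2 : B.card * B.card ≤ 2 * ∑ v ∈ B, l v + B.card := by
    have hsplit : (B ×ˢ B).card ≤
        ((B ×ˢ B).filter (fun q => 0 < χ q.1 q.2)).card +
        ((B ×ˢ B).filter (fun q => 0 < χ q.2 q.1)).card + (B.image (fun v => (v, v))).card := by
      refine le_trans (Finset.card_le_card ?_) (le_trans (Finset.card_union_le _ _)
        (Nat.add_le_add_right (Finset.card_union_le _ _) _))
      intro q hq
      simp only [Finset.mem_union, Finset.mem_filter, Finset.mem_image]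
      by_cases hqq : q.1 = q.2
      · right
        exact ⟨q.1, (Finset.mem_product.1 hq).1, by ext <;> simp [hqq]⟩
      · left
        have hm := Finset.mem_product.1 hq
        have hn := hne q.1 (hBA hm.1) q.2 (hBA hm.2) hqq
        rcases lt_or_gt_of_ne hn with h | h
        · right
          refine ⟨hq, ?_⟩
          rw [hanti q.1 q.2]
          linarith
        · left
          exact ⟨hq, h⟩
    have hc1 : ((B ×ˢ B).filter (fun q => 0 < χ q.1 q.2)).card ≤ ∑ v ∈ B, l v := by
      have : ((B ×ˢ B).filter (fun q => 0 < χ q.1 q.2)).card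
          = ∑ v ∈ B, (B.filter (fun w => 0 < χ v w)).card := by
        rw [← Finset.card_sigma]
        refine Finset.card_bij' (fun q _ => (⟨q.1, q.2⟩ : (_ : V) × V)) (fun q _ => (q.1, q.2))
          ?_ ?_ ?_ ?_
        · intro q hq
          simp only [Finset.mem_filter, Finset.mem_product] at hq
          simp only [Finset.mem_sigma, Finset.mem_filter]
          exact ⟨hq.1.1, hq.1.2, hq.2⟩
        · intro q hq
          simp only [Finset.mem_sigma, Finset.mem_filter] at hq
          simp only [Finset.mem_filter, Finset.mem_product]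
          exact ⟨⟨hq.1, hq.2.1⟩, hq.2.2⟩
        · intro q _; rfl
        · intro q _; rfl
      rw [this]
      apply Finset.sum_le_sum
      intro v _
      exact Finset.card_le_card (Finset.filter_subset_filter _ hBA)
    have hc2 : ((B ×ˢ B).filter (fun q => 0 < χ q.2 q.1)).card
        = ((B ×ˢ B).filter (fun q => 0 < χ q.1 q.2)).card := by
      refine Finset.card_bij' (fun q _ => (q.2, q.1)) (fun q _ => (q.2, q.1)) ?_ ?_ ?_ ?_
      · intro q hq
        simp only [Finset.mem_filter, Finset.mem_product] at hq ⊢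
        exact ⟨⟨hq.1.2, hq.1.1⟩, hq.2⟩
      · intro q hq
        simp only [Finset.mem_filter, Finset.mem_product] at hq ⊢
        exact ⟨⟨hq.1.2, hq.1.1⟩, hq.2⟩
      · intro q _; rfl
      · intro q _; rfl
    have hc3 : (B.image (fun v => (v, v))).card ≤ B.card := Finset.card_image_le
    rw [Finset.card_product] at hsplit
    omega
  -- conclude
  have h3 : ∑ v ∈ B, (s - l v) + ∑ v ∈ B, l v = s * B.card := by
    rw [← Finset.sum_add_distrib]
    rw [Finset.sum_congr rfl (g := fun _ => s)]
    · simp [mul_comm]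
    · intro v hv
      have : l v < s := (Finset.mem_filter.1 hv).2
      omega
  rw [h1]
  obtain ⟨m, hm⟩ : ∃ m, m = B.card := ⟨_, rfl⟩
  rw [← hm] at h2 h3
  have h4 : 2 * ∑ v ∈ B, (s - l v) + (m * m) ≤ 2 * (s * m) + m := by omega
  -- (m - s) (m - s - 1) ≥ 0 for integers
  have h5 : 2 * (s * m) + m ≤ s * (s + 1) + m * m := by
    rcases le_or_gt m s with h | h
    · obtain ⟨k, rfl⟩ := Nat.exists_eq_add_of_le h
      nlinarith [Nat.zero_le (k * k), Nat.zero_le k]
    · obtain ⟨k, hk⟩ := Nat.exists_eq_add_of_le h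
      rw [hk]
      nlinarith [Nat.zero_le (k * k), Nat.zero_le k]
  omega

/-- Sum of the truncated deficits equals a binomial coefficient. -/
lemma sum_deficit (q a : ℕ) : ∑ s ∈ Finset.range q, (s - a) = (q - a).choose 2 := by
  induction q with
  | zero => simp
  | succ k ih =>
    rw [Finset.sum_range_succ, ih]
    rcases le_or_gt a k with h | h
    · have h3 : (k - a + 1).choose 2 = (k - a) + (k - a).choose 2 := by
        rw [Nat.choose_succ_succ' (k - a) 1, Nat.choose_one_right]
      rw [Nat.succ_sub h, h3]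
      omega
    · have h1 : k - a = 0 := by omega
      have h2 : k + 1 - a = 0 := by omega
      simp [h1, h2]

lemma sum_choose (q : ℕ) :
    ∑ s ∈ Finset.range q, (s + 1).choose 2 = (q + 1).choose 3 := by
  induction q with
  | zero => rfl
  | succ k ih =>
    have h3 : (k + 1 + 1).choose 3 = (k + 1).choose 2 + (k + 1).choose 3 :=
      Nat.choose_succ_succ' (k + 1) 2
    rw [Finset.sum_range_succ, ih, h3]
    omega

/-- The elementary inequality replacing the product of two ranks. -/
lemma prod_ge (q a b : ℕ) :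
    q.choose 2 ≤ a * b + (q - a).choose 2 + (q - b).choose 2 := by
  have key : ∀ k : ℕ, 2 * (k.choose 2 : ℤ) = k * (k - 1) := by
    intro k
    have h := Nat.choose_two_right k
    have h2 : 2 * k.choose 2 = k * (k - 1) := by
      rw [h]
      exact Nat.mul_div_cancel' (Nat.even_mul_pred_self k).two_dvd
    rcases Nat.eq_zero_or_pos k with rfl | hk
    · simp
    · have : ((k - 1 : ℕ) : ℤ) = (k : ℤ) - 1 := by
        push_cast [Nat.cast_sub hk]; ring
      rw [← this]
      exact_mod_cast h2
  have hq := key q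
  have ha := key (q - a)
  have hb := key (q - b)
  have hgoal : (2 : ℤ) * (q.choose 2 : ℤ) ≤
      2 * ((a : ℤ) * b) + 2 * ((q - a).choose 2 : ℤ) + 2 * ((q - b).choose 2 : ℤ) := by
    rw [hq, ha, hb]
    rcases le_or_gt q a with h1 | h1
    · have e1 : q - a = 0 := by omega
      rw [e1]
      rcases le_or_gt q b with h2 | h2
      · have e2 : q - b = 0 := by omega
        rw [e2]
        have h1' : (q : ℤ) ≤ a := by exact_mod_cast h1
        have h2' : (q : ℤ) ≤ b := by exact_mod_cast h2
        have hq0 : (0 : ℤ) ≤ q := by positivity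
        push_cast
        nlinarith
      · have e2 : ((q - b : ℕ) : ℤ) = (q : ℤ) - b := by push_cast [Nat.cast_sub h2.le]; ring
        rw [e2]
        have h1' : (q : ℤ) ≤ a := by exact_mod_cast h1
        have h2' : (b : ℤ) + 1 ≤ q := by exact_mod_cast h2
        have hb0 : (0 : ℤ) ≤ b := by positivity
        push_cast
        nlinarith [mul_le_mul_of_nonneg_right h1' hb0, mul_nonneg hb0 hb0]
    · have e1 : ((q - a : ℕ) : ℤ) = (q : ℤ) - a := by push_cast [Nat.cast_sub h1.le]; ring
      rw [e1]
      rcases le_or_gt q b with h2 | h2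
      · have e2 : q - b = 0 := by omega
        rw [e2]
        have h1' : (a : ℤ) + 1 ≤ q := by exact_mod_cast h1
        have h2' : (q : ℤ) ≤ b := by exact_mod_cast h2
        have ha0 : (0 : ℤ) ≤ a := by positivity
        push_cast
        nlinarith [mul_le_mul_of_nonneg_left h2' ha0, mul_nonneg ha0 ha0]
      · have e2 : ((q - b : ℕ) : ℤ) = (q : ℤ) - b := by push_cast [Nat.cast_sub h2.le]; ring
        rw [e2]
        have hz : 0 ≤ ((q : ℤ) - a - b) * ((q : ℤ) - a - b - 1) := by
          rcases le_or_gt ((q : ℤ) - a - b) 0 with h | h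
          · exact mul_nonneg_of_nonpos_of_nonpos h (by linarith)
          · exact mul_nonneg h.le (by linarith)
        nlinarith [hz]
  have : (2 : ℤ) * (q.choose 2 : ℤ) ≤
      2 * ((a * b + (q - a).choose 2 + (q - b).choose 2 : ℕ) : ℤ) := by
    push_cast
    linarith
  exact_mod_cast (mul_le_mul_iff_right₀ (by norm_num : (0 : ℤ) < 2)).1 this

section main

variable (Γ : GeometricGraph)

open Classical in
/-- The neighbours of `u` strictly to the left of the directed line from `u` to `v`. -/
noncomputable def L (u v : Γ.verts) : Finset Γ.verts :=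
  (Γ.graph.neighborFinset u).filter (fun w => 0 < orient (u : Plane) v w)

lemma orient_ne_zero (u v w : Γ.verts) (h1 : u ≠ v) (h2 : v ≠ w) (h3 : u ≠ w) :
    orient (u : Plane) v w ≠ 0 := by
  intro h
  have h1' : (u : Plane) ≠ v := fun h => h1 (Subtype.ext h)
  have h2' : (v : Plane) ≠ w := fun h => h2 (Subtype.ext h)
  have h3' : (u : Plane) ≠ w := fun h => h3 (Subtype.ext h)
  exact Γ.generalPosition u u.2 v v.2 w w.2 h1' h2' h3' (collinear_of_orient_eq_zero h1' h)

open Classical in
lemma vertex_bound (u : Γ.verts) (q : ℕ) :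
    ∑ v ∈ Γ.graph.neighborFinset u, (q - (L Γ u v).card).choose 2 ≤ (q + 1).choose 3 := by
  have h1 : ∑ v ∈ Γ.graph.neighborFinset u, (q - (L Γ u v).card).choose 2
      = ∑ s ∈ Finset.range q, ∑ v ∈ Γ.graph.neighborFinset u, (s - (L Γ u v).card) := by
    rw [Finset.sum_comm]
    apply Finset.sum_congr rfl
    intro v _
    rw [sum_deficit]
  rw [h1, ← sum_choose]
  apply Finset.sum_le_sum
  intro s _
  have h2 := tournament (Γ.graph.neighborFinset u) (fun v w => orient (u : Plane) v w)
    (fun v w => orient_swap' _ _ _) (by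
      intro v hv w hw hvw
      rw [SimpleGraph.mem_neighborFinset] at hv hw
      exact orient_ne_zero Γ u v w hv.ne hvw hw.ne) s
  have h3 : 2 * (s + 1).choose 2 = s * (s + 1) := by
    rw [Nat.choose_two_right, Nat.mul_div_cancel' (Nat.even_mul_pred_self (s + 1)).two_dvd]
    simp [mul_comm]
  have h4 : ∑ v ∈ Γ.graph.neighborFinset u, (s - (L Γ u v).card)
      = ∑ v ∈ Γ.graph.neighborFinset u,
        (s - ((Γ.graph.neighborFinset u).filter
          (fun w : Γ.verts => 0 < orient (u : Plane) v w)).card) := rfl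
  rw [h4]
  omega

open Classical in
/-- The left-left zigzags, as oriented objects. -/
noncomputable def Z : Finset ((_ : Γ.verts) × ((_ : Γ.verts) × (Γ.verts × Γ.verts))) :=
  (Finset.univ : Finset Γ.verts).sigma (fun u =>
    (Γ.graph.neighborFinset u).sigma (fun v => L Γ u v ×ˢ L Γ v u))

open Classical in
lemma card_Z : (Z Γ).card = ∑ u : Γ.verts, ∑ v ∈ Γ.graph.neighborFinset u,
    (L Γ u v).card * (L Γ v u).card := by
  unfold Z
  rw [Finset.card_sigma]
  apply Finset.sum_congr rfl
  intro u _
  rw [Finset.card_sigma]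
  apply Finset.sum_congr rfl
  intro v _
  rw [Finset.card_product]

open Classical in
lemma card_Z_le : (Z Γ).card ≤ 2 * Γ.DJ.ncard := by
  set f : ((_ : Γ.verts) × ((_ : Γ.verts) × (Γ.verts × Γ.verts))) → Sym2 Γ.verts × Sym2 Γ.verts :=
    fun t => (s(t.1, t.2.2.1), s(t.2.1, t.2.2.2)) with hf
  have hmem : ∀ t, t ∈ Z Γ ↔ Γ.graph.Adj t.1 t.2.1 ∧
      (Γ.graph.Adj t.1 t.2.2.1 ∧ 0 < orient (t.1 : Plane) t.2.1 t.2.2.1) ∧
      (Γ.graph.Adj t.2.1 t.2.2.2 ∧ 0 < orient (t.2.1 : Plane) t.1 t.2.2.2) := by
    intro t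
    simp [Z, L]
  -- injectivity
  have hinj : Set.InjOn f (Z Γ) := by
    rintro ⟨u, v, w, x⟩ ht ⟨u', v', w', x'⟩ ht' heq
    have ht := (hmem _).1 ht
    have ht' := (hmem _).1 ht'
    simp only at ht ht'
    obtain ⟨_, ⟨_, a1⟩, ⟨_, a2⟩⟩ := ht
    obtain ⟨_, ⟨_, b1⟩, ⟨_, b2⟩⟩ := ht'
    simp only [hf, Prod.mk.injEq, Sym2.eq_iff] at heq
    obtain ⟨h1, h2⟩ := heq
    rcases h1 with ⟨rfl, rfl⟩ | ⟨rfl, rfl⟩
    · rcases h2 with ⟨rfl, rfl⟩ | ⟨rfl, rfl⟩
      · rfl
      · exfalso
        have e1 : orient (x : Plane) u v = - orient (v : Plane) u x := by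
          unfold orient; ring
        linarith
    · rcases h2 with ⟨rfl, rfl⟩ | ⟨rfl, rfl⟩
      · exfalso
        have e1 : orient (w : Plane) v u = - orient (u : Plane) v w := by
          unfold orient; ring
        linarith
      · exfalso
        have e1 := orient_four (u : Plane) v w x
        have e2 : orient (w : Plane) x u = orient (u : Plane) w x := by
          unfold orient; ring
        have e3 : orient (x : Plane) w v = orient (v : Plane) x w := by
          unfold orient; ring
        linarith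
  set D : Finset (Sym2 Γ.verts × Sym2 Γ.verts) := (Z Γ).image f with hD
  have hcard : (Z Γ).card = D.card := (Finset.card_image_of_injOn hinj).symm
  rw [hcard]
  have h2 : D.card ≤ 2 * (D.image (fun q => s(q.1, q.2))).card := by
    apply Finset.card_le_mul_card_image
    intro P _
    induction P using Sym2.ind with
    | _ a b =>
      refine le_trans (Finset.card_le_card (t := {(a, b), (b, a)}) ?_) Finset.card_le_two
      intro q hq
      simp only [Finset.mem_filter, Sym2.eq_iff] at hq
      simp only [Finset.mem_insert, Finset.mem_singleton]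
      rcases hq.2 with ⟨h1, h2⟩ | ⟨h1, h2⟩
      · left; ext <;> simp [h1, h2]
      · right; ext <;> simp [h1, h2]
  have h3 : (D.image (fun q => s(q.1, q.2))).card ≤ Γ.DJ.ncard := by
    rw [← Set.ncard_coe_finset]
    apply Set.ncard_le_ncard _ (Set.toFinite _)
    intro P hP
    simp only [hD, Finset.coe_image, Set.mem_image] at hP
    obtain ⟨_, ⟨t, ht, rfl⟩, rfl⟩ := hP
    have ht := (hmem t).1 ht
    obtain ⟨c0, ⟨c1, a1⟩, ⟨c2, a2⟩⟩ := ht
    refine ⟨t.1, t.2.2.1, t.2.1, t.2.2.2, c1, c2, ?_, rfl⟩
    exact disjoint_of_zigzag (fun h => c0.ne (Subtype.ext h)) a1 a2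
  omega

open Classical in
lemma sum_degrees : ∑ u : Γ.verts, (Γ.graph.neighborFinset u).card = 2 * Γ.e := by
  have h := Γ.graph.sum_degrees_eq_twice_card_edges
  have h2 : Γ.e = Γ.graph.edgeFinset.card := by
    unfold GeometricGraph.e
    rw [← SimpleGraph.coe_edgeFinset, Set.ncard_coe_finset]
  rw [h2, ← h]
  apply Finset.sum_congr rfl
  intro u _
  rfl

open Classical in
/-- The linear lower bounds for the number of disjoint pairs. -/
theorem linear_bound (q : ℕ) :
    Γ.e * q.choose 2 ≤ Γ.DJ.ncard + Γ.n * (q + 1).choose 3 := by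
  have h1 : 2 * Γ.e * q.choose 2 = ∑ u : Γ.verts, ∑ v ∈ Γ.graph.neighborFinset u, q.choose 2 := by
    rw [← sum_degrees Γ, Finset.sum_mul]
    apply Finset.sum_congr rfl
    intro u _
    simp
  have h2 : ∑ u : Γ.verts, ∑ v ∈ Γ.graph.neighborFinset u, q.choose 2 ≤
      ∑ u : Γ.verts, ∑ v ∈ Γ.graph.neighborFinset u, ((L Γ u v).card * (L Γ v u).card
        + (q - (L Γ u v).card).choose 2 + (q - (L Γ v u).card).choose 2) := by
    apply Finset.sum_le_sum
    intro u _
    apply Finset.sum_le_sum
    intro v _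
    exact prod_ge q _ _
  have h3 : ∑ u : Γ.verts, ∑ v ∈ Γ.graph.neighborFinset u, ((L Γ u v).card * (L Γ v u).card
        + (q - (L Γ u v).card).choose 2 + (q - (L Γ v u).card).choose 2)
      = (Z Γ).card + ∑ u : Γ.verts, ∑ v ∈ Γ.graph.neighborFinset u, (q - (L Γ u v).card).choose 2
        + ∑ u : Γ.verts, ∑ v ∈ Γ.graph.neighborFinset u, (q - (L Γ v u).card).choose 2 := by
    rw [card_Z]
    simp only [Finset.sum_add_distrib]
  have h4 : ∑ u : Γ.verts, ∑ v ∈ Γ.graph.neighborFinset u, (q - (L Γ v u).card).choose 2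
      = ∑ u : Γ.verts, ∑ v ∈ Γ.graph.neighborFinset u, (q - (L Γ u v).card).choose 2 := by
    have e1 : ∀ g : Γ.verts → Γ.verts → ℕ, ∑ u : Γ.verts, ∑ v ∈ Γ.graph.neighborFinset u, g u v
        = ∑ u : Γ.verts, ∑ v : Γ.verts, if Γ.graph.Adj u v then g u v else 0 := by
      intro g
      apply Finset.sum_congr rfl
      intro u _
      rw [← Finset.sum_filter]
      apply Finset.sum_congr
      · ext v; simp
      · intro v _; rfl
    rw [e1 (fun u v => (q - (L Γ v u).card).choose 2), e1 (fun u v => (q - (L Γ u v).card).choose 2),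
      Finset.sum_comm]
    apply Finset.sum_congr rfl
    intro u _
    apply Finset.sum_congr rfl
    intro v _
    simp only [SimpleGraph.adj_comm]
  have h5 : ∑ u : Γ.verts, ∑ v ∈ Γ.graph.neighborFinset u, (q - (L Γ u v).card).choose 2
      ≤ Γ.n * (q + 1).choose 3 := by
    refine le_trans (Finset.sum_le_sum (fun u _ => vertex_bound Γ u q)) ?_
    simp [GeometricGraph.n]
  have h6 := card_Z_le Γ
  have h7 : 2 * Γ.e * q.choose 2 = 2 * (Γ.e * q.choose 2) := by ring
  omega

end main

/-- Every geometric graph with `n ≤ 2 e` has at least `(n / 2) * binom(d, 3)` pairs of disjoint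
edges, where `d = 2 e / n` is the average degree and `binom(x, 3) = x (x - 1) (x - 2) / 6`. -/
theorem result (Γ : GeometricGraph) (h : Γ.n ≤ 2 * Γ.e) :
    (Γ.n : ℝ) / 2 * (Γ.d * (Γ.d - 1) * (Γ.d - 2) / 6) ≤ (Γ.DJ.ncard : ℝ) := by
  rcases Nat.eq_zero_or_pos Γ.n with hn | hn
  · rw [hn]
    simp
  set q : ℕ := (2 * Γ.e) / Γ.n with hq
  have hq1 : 1 ≤ q := (Nat.one_le_div_iff hn).2 h
  have hlow : q * Γ.n ≤ 2 * Γ.e := Nat.div_mul_le_self _ _
  have hup : 2 * Γ.e < (q + 1) * Γ.n := by
    have := Nat.lt_div_mul_add (a := 2 * Γ.e) hn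
    rw [add_mul, one_mul]
    exact this
  have hlin := linear_bound Γ q
  have key2 : (q.choose 2 : ℝ) = q * (q - 1) / 2 := Nat.cast_choose_two ℝ q
  have key3 : ((q + 1).choose 3 : ℝ) = (q + 1) * q * (q - 1) / 6 := by
    have hfac : ((q + 1).choose 3 * 6 : ℕ) = (q + 1).descFactorial 3 := by
      rw [Nat.descFactorial_eq_factorial_mul_choose]
      simp [Nat.factorial]
      ring
    have hd : ((q + 1).descFactorial 3 : ℕ) = (q + 1) * q * (q - 1) := by
      simp [Nat.descFactorial]
      ring
    have hc : (((q - 1 : ℕ)) : ℝ) = (q : ℝ) - 1 := by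
      push_cast [Nat.cast_sub hq1]; ring
    have h6 : (((q + 1).choose 3 : ℕ) : ℝ) * 6 = (q + 1) * q * (q - 1) := by
      rw [← hc]
      exact_mod_cast hfac.trans hd
    linarith
  have hlin' : (Γ.e : ℝ) * (q * (q - 1) / 2) ≤
      (Γ.DJ.ncard : ℝ) + Γ.n * ((q + 1) * q * (q - 1) / 6) := by
    rw [← key2, ← key3]
    exact_mod_cast hlin
  have hn' : (0 : ℝ) < Γ.n := by exact_mod_cast hn
  have hd : (Γ.e : ℝ) = Γ.d * Γ.n / 2 := by
    unfold GeometricGraph.d
    field_simp
  have hdlow : (q : ℝ) ≤ Γ.d := by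
    unfold GeometricGraph.d
    rw [le_div_iff₀ hn']
    exact_mod_cast hlow
  have hdup : Γ.d ≤ q + 1 := by
    unfold GeometricGraph.d
    rw [div_le_iff₀ hn']
    exact_mod_cast hup.le
  have hq1' : (1 : ℝ) ≤ q := by exact_mod_cast hq1
  have hpoly : 0 ≤ (Γ.n : ℝ) / 2 * ((Γ.d - q) * (q + 1 - Γ.d) * (Γ.d + 2 * q - 2) / 6) := by
    have a1 : 0 ≤ Γ.d - q := by linarith
    have a2 : 0 ≤ (q : ℝ) + 1 - Γ.d := by linarith
    have a3 : 0 ≤ Γ.d + 2 * q - 2 := by linarith
    positivity
  have hid : (Γ.n : ℝ) / 2 * (Γ.d * (Γ.d - 1) * (Γ.d - 2) / 6)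
      + (Γ.n : ℝ) / 2 * ((Γ.d - q) * (q + 1 - Γ.d) * (Γ.d + 2 * q - 2) / 6)
      = (Γ.d * Γ.n / 2) * (q * (q - 1) / 2) - Γ.n * ((q + 1) * q * (q - 1) / 6) := by
    ring
  rw [hd] at hlin'
  linarith

end Pool.Agent.Results.MP_390221_co.DisjointPairs
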